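import Pool.Agent.H.MP_44257e_co.UH.W0

/-!
# Arithmetic: the choice of `M = 4 n k / t + k + 1`
-/

set_option autoImplicit false

namespace MP44257e

theorem exists_M {n t V : ℕ} (ht : 36 ≤ t) (htn : t ^ 2 ≤ 2 * n) (hV : 9 * n ^ 6 ≤ t * V ^ 2) :
    ∃ M, HM n t (n + t) M ∧ n * M < V ∧
      n ^ 2 * (n + t) ^ 2 * M ≤ (V - n * t) * (V - n * M) := by
  have h18 : 18 * t ≤ n := by nlinarith
  have hn : 648 ≤ n := by omega
  obtain ⟨k, hk⟩ : ∃ k, k = n + t := ⟨_, rfl⟩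
  have hk18 : 18 * k ≤ 19 * n := by omega
  have ht0 : 0 < t := by omega
  obtain ⟨D, d1, d2⟩ : ∃ D, t * D ≤ 4 * n * k ∧ 4 * n * k < t * D + t := by
    refine ⟨4 * n * k / t, Nat.mul_div_le _ _, ?_⟩
    have := Nat.lt_mul_div_succ (4 * n * k) ht0
    nlinarith
  have d3 : 72 * k ≤ D := by
    by_contra hcon
    have g1 : D + 1 ≤ 72 * k := by omega
    have g2 : t * (D + 1) ≤ t * (72 * k) := Nat.mul_le_mul_left _ g1
    have g3 : 4 * (18 * t) * k ≤ 4 * n * k := Nat.mul_le_mul_right _ (by omega)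
    have g4 : t * (D + 1) = t * D + t := by ring
    have g5 : t * (72 * k) = 4 * (18 * t) * k := by ring
    omega
  obtain ⟨M, hM⟩ : ∃ M, M = D + k + 1 := ⟨_, rfl⟩
  have hM' : t * M = t * D + t * k + t := by rw [hM]; ring
  have m1 : 4 * n * k + t * k ≤ t * M := by omega
  have m2 : t * M ≤ 4 * n * k + t * k + t := by omega
  have a1 : 18 * (n * k) ≤ 19 * n ^ 2 := by nlinarith
  have a2 : 324 * (t * k) ≤ 19 * n ^ 2 := by
    have := Nat.mul_le_mul h18 hk18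
    nlinarith
  have a3 : 648 * n ≤ n ^ 2 := by nlinarith
  have m3 : 10 * (t * M) ≤ 43 * n ^ 2 := by nlinarith
  have n0 : 0 < n := by omega
  have n6 : 0 < n ^ 6 := by positivity
  have b1 : (10 * (t * M)) ^ 2 ≤ (43 * n ^ 2) ^ 2 := Nat.pow_le_pow_left m3 2
  have h4 : 4 * (n * M) ≤ V := by
    by_contra hcon
    push Not at hcon
    have c1 : V ^ 2 ≤ (4 * (n * M)) ^ 2 := Nat.pow_le_pow_left hcon.le 2
    have c2 : t * (9 * n ^ 6) ≤ t * (t * V ^ 2) := Nat.mul_le_mul_left t hV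
    have c3 : t * (t * V ^ 2) ≤ t * (t * (4 * (n * M)) ^ 2) :=
      Nat.mul_le_mul_left _ (Nat.mul_le_mul_left _ c1)
    have c4 : 36 * (9 * n ^ 6) ≤ t * (9 * n ^ 6) := Nat.mul_le_mul_right _ ht
    have c5 : 100 * (t * (t * (4 * (n * M)) ^ 2)) = 16 * n ^ 2 * (10 * (t * M)) ^ 2 := by ring
    have c6 : 16 * n ^ 2 * (10 * (t * M)) ^ 2 ≤ 16 * n ^ 2 * (43 * n ^ 2) ^ 2 :=
      Nat.mul_le_mul_left _ b1
    have c7 : 16 * n ^ 2 * (43 * n ^ 2) ^ 2 = 29584 * n ^ 6 := by ring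
    omega
  have hMk : k ≤ M := by omega
  have h5 : 100 * (n * t) ≤ V := by
    have e2 : 25 * t ≤ M := by omega
    have e3 : n * (25 * t) ≤ n * M := Nat.mul_le_mul_left _ e2
    nlinarith
  have hnM : 0 < n * M := by
    have : 0 < M := by omega
    positivity
  refine ⟨M, ⟨by omega, htn, rfl, ?_⟩, by omega, ?_⟩
  · rw [← hk]
    exact m1
  · rw [← hk]
    obtain ⟨P, hP⟩ : ∃ P, P = V - n * t := ⟨_, rfl⟩
    obtain ⟨Q, hQ⟩ : ∃ Q, Q = V - n * M := ⟨_, rfl⟩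
    rw [← hP, ← hQ]
    have p1 : 99 * V ≤ 100 * P := by omega
    have q1 : 3 * V ≤ 4 * Q := by omega
    have r1 : 99 * V * (3 * V) ≤ 100 * P * (4 * Q) := Nat.mul_le_mul p1 q1
    have r2 : 297 * (t * V ^ 2) ≤ 400 * (t * (P * Q)) := by
      have := Nat.mul_le_mul_left t r1
      nlinarith
    have k2 : (18 * k) ^ 2 ≤ (19 * n) ^ 2 := Nat.pow_le_pow_left hk18 2
    have s1 : (18 * k) ^ 2 * (10 * (t * M)) ≤ (19 * n) ^ 2 * (43 * n ^ 2) := Nat.mul_le_mul k2 m3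
    have s2 : n ^ 2 * ((18 * k) ^ 2 * (10 * (t * M))) ≤ n ^ 2 * ((19 * n) ^ 2 * (43 * n ^ 2)) :=
      Nat.mul_le_mul_left _ s1
    have s3 : n ^ 2 * ((18 * k) ^ 2 * (10 * (t * M))) = 3240 * (t * (n ^ 2 * k ^ 2 * M)) := by ring
    have s4 : n ^ 2 * ((19 * n) ^ 2 * (43 * n ^ 2)) = 15523 * n ^ 6 := by ring
    have fin : t * (n ^ 2 * k ^ 2 * M) ≤ t * (P * Q) := by omega
    exact Nat.le_of_mul_le_mul_left fin ht0

end MP44257e
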