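import Pool.Agent.H.MP_44257e_co.UH.W7
import Pool.Agent.H.MP_44257e_co.UH.W8
import Pool.Agent.H.MP_44257e_co.UE.F1
import Pool.Agent.H.MP_44257e_co.UE.F6
import Pool.Agent.H.MP_44257e_co.UE.F7

/-!
# `N({0,1,t}, n + t) ≤ 3 n^3 / √t + t` for `36 ≤ t`, `t^2 ≤ 2 n`
-/

set_option autoImplicit false

namespace MP44257e

open Finset

private theorem bound_01w {n t v : ℕ} (hn : 1 ≤ n) (ht : 2 ≤ t) (htv : t ≤ v) :
    bound [0, 1, t] (n + t) v =
      ((v * ((v - 1) * (v - t)) : ℕ) : ℚ) / (((n + t) * (n + t - 1) * n : ℕ) : ℚ) := by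
  have hv1 : ((v - 1 : ℕ) : ℚ) = (v : ℚ) - 1 := by push_cast [Nat.cast_sub (by omega : 1 ≤ v)]; ring
  have hvt : ((v - t : ℕ) : ℚ) = (v : ℚ) - t := by push_cast [Nat.cast_sub htv]; ring
  have hk1 : ((n + t - 1 : ℕ) : ℚ) = (n : ℚ) + t - 1 := by
    push_cast [Nat.cast_sub (by omega : 1 ≤ n + t)]; ring
  have hn0 : (0 : ℚ) < n := by exact_mod_cast (by omega : 0 < n)
  have ht0 : (2 : ℚ) ≤ t := by exact_mod_cast ht
  have h1 : (n : ℚ) + t ≠ 0 := by positivity
  have h2 : (n : ℚ) + t - 1 ≠ 0 := by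
    have : (0 : ℚ) < (n : ℚ) + t - 1 := by linarith
    exact this.ne'
  have hb0 : bound [0, 1, t] (n + t) v =
      ((v : ℚ) / ((n : ℚ) + t)) * (((v : ℚ) - 1) / ((n : ℚ) + t - 1)) * (((v : ℚ) - t) / (n : ℚ)) := by
    simp only [bound, List.map_cons, List.map_nil, List.prod_cons, List.prod_nil]
    push_cast
    have : (n : ℚ) + t - t = n := by ring
    rw [this]
    ring
  rw [hb0]
  push_cast [hv1, hvt, hk1]
  field_simp

/-- Properties (i) and (ii) for `T = {0, 1, t}`, `k = n + t`, `v - t ≥ 3 n^3 / √t`. -/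
theorem good_01w {n t v : ℕ} (ht : 36 ≤ t) (htn : t ^ 2 ≤ 2 * n)
    (hv : 9 * n ^ 6 ≤ t * (v - t) ^ 2) : Good [0, 1, t] (n + t) v := by
  intro A hA
  obtain ⟨M, hM, hV1, hV2⟩ := exists_M ht htn hv
  have hn36 : 36 * t ≤ 2 * n := by nlinarith
  have hMt : 9 * (n + t) ≤ M := (HM_ar hM).2.2.2.1
  have hnM : n * 1 ≤ n * M := Nat.mul_le_mul_left _ (by omega)
  have hV0 : n * M + t < v := by omega
  have hnv : n + t < v := by omega
  have hVc : n ^ 2 * (n + t) ^ 2 * M ≤ (v - t - n * t) * (v - t - n * M) := hV2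
  have hT := totalT hA
  have hconst : ∑ x : Fin v, (v - 1) * (v - t) = v * ((v - 1) * (v - t)) := by simp
  have hle : ∀ x : Fin v, (∑ y ∈ univ.erase x, (thr A x y).card) * n ≤
      (v - 1) * (v - t) := fun x => (point_sumW hM hA hV0 hVc x).1
  have hsum : A.card * ((n + t) * (n + t - 1)) * n ≤
      v * ((v - 1) * (v - t)) := by
    rw [← hT, ← hconst, sum_mul]
    exact sum_le_sum fun x _ => hle x
  have hbd := bound_01w (n := n) (t := t) (v := v) (by omega) (by omega) (by omega)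
  have hpos : (0 : ℚ) < (((n + t) * (n + t - 1) * n : ℕ) : ℚ) := by
    have h1 : 0 < n := by omega
    have h2 : 0 < n + t := by omega
    have h3 : 0 < n + t - 1 := by omega
    exact_mod_cast Nat.mul_pos (Nat.mul_pos h2 h3) h1
  refine ⟨?_, ?_, ?_⟩
  · rw [hbd, le_div_iff₀ hpos]
    exact_mod_cast (by linarith [hsum] : A.card * ((n + t) * (n + t - 1) * n) ≤
      v * ((v - 1) * (v - t)))
  · intro heq
    rw [hbd, eq_div_iff hpos.ne'] at heq
    have heq' : A.card * ((n + t) * (n + t - 1) * n) =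
        v * ((v - 1) * (v - t)) := by
      exact_mod_cast heq
    have h1 : ∑ x : Fin v, (∑ y ∈ univ.erase x, (thr A x y).card) * n =
        ∑ x : Fin v, (v - 1) * (v - t) := by
      rw [hconst, ← sum_mul, hT, ← heq']
      ring
    have h2 := (sum_eq_sum_iff_of_le fun x _ => hle x).1 h1
    obtain ⟨L, hL⟩ := desL_of_sun (by omega) (by omega) (by omega) hA fun x y hxy =>
      (point_sumW hM hA hV0 hVc x).2 (h2 x (mem_univ x)) y hxy.symm
    exact pmd_of_desL (by omega) (by omega) hnv hA hL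
  · rintro ⟨M, hM, hH⟩
    obtain ⟨L, hL⟩ := desL_of_pmd hM hH
    have h1 : A.card * ((n + t) * (n + t - 1)) * n =
        v * ((v - 1) * (v - t)) := by
      rw [← hT, ← hconst, sum_mul]
      refine sum_congr rfl fun x _ => ?_
      rw [sum_mul, sum_congr rfl fun y hy =>
        desL_thr (by omega) (by omega) (by omega) hA hL (ne_of_mem_erase hy).symm]
      simp
    rw [hbd, eq_div_iff hpos.ne']
    exact_mod_cast (by linarith [h1] : A.card * ((n + t) * (n + t - 1) * n) =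
      v * ((v - 1) * (v - t)))

end MP44257e
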