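import Pool.Agent.H.MP_44257e_co.UE.E2

/-!
# The bound `3 n^3 / √t + t` for `T = {0, 1, t}`, `k = n + t`, `36 ≤ t`, `t^2 ≤ 2 n`: definitions

`k = n + t`. The point `x` is fixed; `D z = (thr A x z).card`, `r_q = (thr3 A x z q).card`.
-/

set_option autoImplicit false

namespace MP44257e

variable {v : ℕ}

/-- The parameters: `k` the size of the members, `M` the bound for heavy points. -/
def HM (n t k M : ℕ) : Prop :=
  4 ≤ t ∧ t ^ 2 ≤ 2 * n ∧ k = n + t ∧ 4 * n * k + t * k ≤ t * M

/-- The big points of the pair `x, z`. -/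
def Bg (k : ℕ) (A : Finset (Finset (Fin v))) (x z : Fin v) : Finset (Fin v) :=
  Finset.univ.filter fun q => k < (thr3 A x z q).card

/-- The light points: `x` with `q` has degree less than `M`. -/
def Lt (M : ℕ) (A : Finset (Finset (Fin v))) (x : Fin v) : Finset (Fin v) :=
  Finset.univ.filter fun q => q ≠ x ∧ (thr A x q).card < M

theorem mem_Bg {k : ℕ} {A : Finset (Finset (Fin v))} {x z q : Fin v} :
    q ∈ Bg k A x z ↔ k < (thr3 A x z q).card := by simp [Bg]

theorem mem_Lt {M : ℕ} {A : Finset (Finset (Fin v))} {x q : Fin v} :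
    q ∈ Lt M A x ↔ q ≠ x ∧ (thr A x q).card < M := by simp [Lt]

end MP44257e
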