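import Pool.Agent.H.MP_44257e_co.UH.W0

/-!
# Dichotomy and arithmetic of the parameters

`HM_ar`: `n ≥ t^2 / 2 ≥ 2 t`; `k = n + t ≤ 3 n / 2`; `t (M - k) ≥ 4 n k ≥ 2 t^2 k`, so `M ≥ k + 2 t k ≥ 9 k`,
and `(t + 1) k + 1 < M`.
`dich2`: `centroid` gives `r (m - r) ≤ n m`. If `k < r` and `r + k < m` then
`r (m - r) ≥ (k + 1)(m - k - 1)` (concave), so `(t + 1) m ≤ (k + 1)^2` (`k - n = t`), but
`(t + 1) m > 4 n k ≥ (k + 1)^2` (`3 n ≥ 2 k`, `k ≥ 12`), a contradiction.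
-/

set_option autoImplicit false

namespace MP44257e

variable {v n t k M : ℕ} {A : Finset (Finset (Fin v))} {x z : Fin v}

theorem HM_ar (h : HM n t k M) : 2 * t ≤ n ∧ 2 * k ≤ 3 * n ∧ 12 ≤ k ∧ 9 * k ≤ M ∧
    (t + 1) * k + 1 < M := by
  obtain ⟨h1, h2, rfl, h4⟩ := h
  have h5 : 2 * t ≤ n := by nlinarith
  have h6 : (n + t) * (2 * t + 1) ≤ M := by
    have h7 : t * ((n + t) * (2 * t + 1)) ≤ t * M := by
      have h8 := Nat.mul_le_mul_right (n + t) h2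
      nlinarith
    exact Nat.le_of_mul_le_mul_left h7 (by omega)
  have h7 : (n + t) * 9 ≤ (n + t) * (2 * t + 1) := Nat.mul_le_mul_left _ (by omega)
  have h8 : 12 * 4 ≤ (n + t) * t := Nat.mul_le_mul (by omega) h1
  refine ⟨h5, by omega, by omega, by omega, ?_⟩
  have h9 : (n + t) * (2 * t + 1) = (t + 1) * (n + t) + (n + t) * t := by ring
  omega

theorem dich2 (h : HM n t k M) (hA : IsFam [0, 1, t] k A) (hxz : x ≠ z)
    (hm : 4 * n * k ≤ t * (thr A x z).card) (q : Fin v) :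
    (thr3 A x z q).card ≤ k ∨ (thr A x z).card ≤ (thr3 A x z q).card + k := by
  obtain ⟨g1, g2, g3, -, -⟩ := HM_ar h
  obtain ⟨f1, -, rfl, -⟩ := h
  have hc := centroid (by omega) hA hxz q
  by_contra hcon
  push Not at hcon
  obtain ⟨h1, h2⟩ := hcon
  generalize (thr3 A x z q).card = r at hc h1 h2
  generalize (thr A x z).card = m at hc h2 hm
  obtain ⟨s, rfl⟩ : ∃ s, m = r + s := ⟨m - r, by omega⟩
  rw [Nat.add_sub_cancel_left] at hc
  obtain ⟨a, rfl⟩ : ∃ a, r = n + t + 1 + a := ⟨r - (n + t + 1), by omega⟩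
  obtain ⟨b, rfl⟩ : ∃ b, s = n + t + 1 + b := ⟨s - (n + t + 1), by omega⟩
  have e1 : (t + 1) * (n + t + 1 + a + (n + t + 1 + b)) ≤ (n + t + 1) ^ 2 := by
    nlinarith [Nat.zero_le (a * b)]
  have e2 : (n + t + 1) ^ 2 ≤ 4 * n * (n + t) := by
    have e3 : (n + t) * (2 * (n + t)) ≤ (n + t) * (3 * n) := Nat.mul_le_mul_left _ g2
    have e4 : (n + t) * 12 ≤ (n + t) * (n + t) := Nat.mul_le_mul_left _ g3
    nlinarith
  have e5 : (t + 1) * (n + t + 1 + a + (n + t + 1 + b)) =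
      t * (n + t + 1 + a + (n + t + 1 + b)) + (n + t + 1 + a + (n + t + 1 + b)) := by ring
  omega

end MP44257e
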