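import Pool.Agent.H.MP_44257e_co.UH.W1

/-!
# At most `t - 1` big points for a pair that is not a sunflower

`m = (thr A x z).card ≥ M`. Big points are missed by at most `k` of the `m` members (`dich2`).
First `(Bg k A x z).card ≤ t`: else take `t + 1` of them; at least `m - (t + 1) k ≥ 2` members contain all
of them, contradiction to `interT_le`. If the number is `t` exactly, `β = Bg k A x z`: `x, z ∈ β` (`r = m`),
not `SunT`, so some member `F ∋ x, z` does not contain `β`; at least `m - t k` members contain `β`; two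
of them share exactly `β`; `F` meets each of them in `t` points (`interT`), so in a point off `β`,
different for different ones; so `m - t k ≤ (F \ β).card ≤ k`, contradiction to `(t + 1) k + 1 < M ≤ m`.
Compare the last part of `UE/E2b.lean`.
-/

set_option autoImplicit false

namespace MP44257e

variable {v n t k M : ℕ} {A : Finset (Finset (Fin v))} {x z : Fin v}

private theorem W2_thr3 (q : Fin v) :
    thr3 A x z q = (thr A x z).filter fun X => q ∈ X := by
  ext X
  rw [Finset.mem_filter, mem_thr3, mem_thr]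
  tauto

/-- The members which contain a set of big points. -/
private theorem W2_cov {k : ℕ} (γ : Finset (Fin v))
    (hγ : ∀ q ∈ γ, (thr A x z).card ≤ (thr3 A x z q).card + k) :
    (thr A x z).card ≤ ((thr A x z).filter fun X => γ ⊆ X).card + γ.card * k := by
  classical
  have h1 : thr A x z ⊆ ((thr A x z).filter fun X => γ ⊆ X) ∪
      γ.biUnion fun q => (thr A x z).filter fun X => q ∉ X := by
    intro X hX
    by_cases h : γ ⊆ X
    · exact Finset.mem_union_left _ (Finset.mem_filter.2 ⟨hX, h⟩)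
    · obtain ⟨q, hq, hq'⟩ := Finset.not_subset.1 h
      exact Finset.mem_union_right _ (Finset.mem_biUnion.2
        ⟨q, hq, Finset.mem_filter.2 ⟨hX, hq'⟩⟩)
  have h2 : (γ.biUnion fun q => (thr A x z).filter fun X => q ∉ X).card ≤ γ.card * k := by
    refine Finset.card_biUnion_le_card_mul _ _ _ fun q hq => ?_
    have h3 := hγ q hq
    rw [W2_thr3] at h3
    have h4 := Finset.card_filter_add_card_filter_not (s := thr A x z) (fun X => q ∈ X)
    omega
  have h3 := (Finset.card_le_card h1).trans (Finset.card_union_le _ _)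
  omega

theorem card_Bg (h : HM n t k M) (hA : IsFam [0, 1, t] k A) (hxz : x ≠ z)
    (hs : ¬ SunT t A x z) (hm : M ≤ (thr A x z).card) : (Bg k A x z).card + 1 ≤ t := by
  classical
  obtain ⟨_, _, _, _, hM⟩ := HM_ar h
  obtain ⟨ht4, _, hk, hM4⟩ := id h
  have ht1 : 1 ≤ t := by omega
  have ht2 : 2 ≤ t := by omega
  have hm4 : 4 * n * k ≤ t * (thr A x z).card := by
    have h1 := Nat.mul_le_mul_left t hm
    omega
  have hdich := dich2 h hA hxz hm4
  obtain ⟨β, hβ⟩ : ∃ β, β = Bg k A x z := ⟨_, rfl⟩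
  rw [← hβ]
  have hmβ : ∀ q, q ∈ β ↔ k < (thr3 A x z q).card := fun q => by rw [hβ, mem_Bg]
  have hbig : ∀ q ∈ β, (thr A x z).card ≤ (thr3 A x z q).card + k := by
    intro q hq
    have h1 := (hmβ q).1 hq
    rcases hdich q with h2 | h2
    · omega
    · exact h2
  have hmk : (t + 1) * k + 1 < (thr A x z).card := lt_of_lt_of_le hM hm
  have hβt : β.card ≤ t := by
    by_contra hcon
    obtain ⟨γ, hγβ, hγc⟩ := Finset.exists_subset_card_eq (by omega : t + 1 ≤ β.card)
    have h1 := W2_cov (A := A) (x := x) (z := z) (k := k) γ fun q hq => hbig q (hγβ hq)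
    rw [hγc] at h1
    have h2 : 1 < ((thr A x z).filter fun X => γ ⊆ X).card := by omega
    obtain ⟨X, hX, Y, hY, hne⟩ := Finset.one_lt_card.1 h2
    obtain ⟨hX1, hX2⟩ := Finset.mem_filter.1 hX
    obtain ⟨hY1, hY2⟩ := Finset.mem_filter.1 hY
    have h3 := interT_le ht1 hA (mem_thr.1 hX1).1 (mem_thr.1 hY1).1 hne
    have h4 := Finset.card_le_card (Finset.subset_inter hX2 hY2)
    omega
  by_contra hcon
  have hβc : β.card = t := by omega
  have hxin : ∀ X ∈ thr A x z, x ∈ X := fun X hX => (mem_thr.1 hX).2.1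
  have hzin : ∀ X ∈ thr A x z, z ∈ X := fun X hX => (mem_thr.1 hX).2.2
  have hall : ∀ q, (∀ X ∈ thr A x z, q ∈ X) → q ∈ β := by
    intro q hq
    rw [hmβ, W2_thr3, Finset.filter_true_of_mem hq]
    have h1 : k ≤ (t + 1) * k := Nat.le_mul_of_pos_left _ (Nat.succ_pos t)
    omega
  obtain ⟨G, hG, hGβ⟩ : ∃ G ∈ thr A x z, ¬ β ⊆ G := by
    by_contra hcon2
    push Not at hcon2
    exact hs ⟨β, hβc, hall x hxin, hall z hzin, hcon2⟩
  have hGA := (mem_thr.1 hG).1
  obtain ⟨E, hE⟩ : ∃ E, E = (thr A x z).filter fun X => β ⊆ X := ⟨_, rfl⟩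
  have hEm : (thr A x z).card ≤ E.card + t * k := by
    have h1 := W2_cov (A := A) (x := x) (z := z) (k := k) β hbig
    rw [hβc] at h1
    rw [hE]
    exact h1
  have hEp : ∀ X, ∃ p, X ∈ E → p ∈ X ∧ p ∈ G ∧ p ∉ β := by
    intro X
    by_cases hX : X ∈ E
    · rw [hE] at hX
      obtain ⟨hX1, hX2⟩ := Finset.mem_filter.1 hX
      have hne : X ≠ G := fun h => hGβ (h ▸ hX2)
      have h1 : (X ∩ G).card = t := interT ht2 hA (mem_thr.1 hX1).1 hGA hne hxz (hxin X hX1)
        (hzin X hX1) (hxin G hG) (hzin G hG)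
      have h2 : ¬ X ∩ G ⊆ β := by
        intro h
        have h3 := Finset.eq_of_subset_of_card_le h (by omega)
        apply hGβ
        rw [← h3]
        exact Finset.inter_subset_right
      obtain ⟨p, hp, hp'⟩ := Finset.not_subset.1 h2
      obtain ⟨hp1, hp2⟩ := Finset.mem_inter.1 hp
      exact ⟨p, fun _ => ⟨hp1, hp2, hp'⟩⟩
    · exact ⟨x, fun h => absurd h hX⟩
  choose p hp using hEp
  have hEle : E.card ≤ G.card := by
    refine Finset.card_le_card_of_injOn p (fun X hX => ?_) ?_
    · obtain ⟨_, h2, _⟩ := hp X hX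
      exact Finset.mem_coe.2 h2
    · intro X hX Y hY heq
      by_contra hne
      obtain ⟨h1, h2, h3⟩ := hp X hX
      obtain ⟨h4, -, -⟩ := hp Y hY
      have hX' := hX
      have hY' := hY
      rw [hE] at hX' hY'
      obtain ⟨hX1, hX2⟩ := Finset.mem_filter.1 (Finset.mem_coe.1 hX')
      obtain ⟨hY1, hY2⟩ := Finset.mem_filter.1 (Finset.mem_coe.1 hY')
      have h5 := interT_le ht1 hA (mem_thr.1 hX1).1 (mem_thr.1 hY1).1 hne
      have h6 : insert (p X) β ⊆ X ∩ Y := by
        intro q hq
        rcases Finset.mem_insert.1 hq with rfl | hq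
        · refine Finset.mem_inter.2 ⟨h1, ?_⟩
          have h7 : p X = p Y := heq
          rw [h7]
          exact h4
        · exact Finset.mem_inter.2 ⟨hX2 hq, hY2 hq⟩
      have h7 := Finset.card_le_card h6
      rw [Finset.card_insert_of_notMem h3, hβc] at h7
      omega
  rw [hA.1 G hGA] at hEle
  have h8 : (t + 1) * k = t * k + k := by ring
  omega

end MP44257e
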