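import Pool.Agent.H.MP_44257e_co.UH.W1

/-!
# Every member through `x, z` contains at least `3 t / 4` big points

`m = (thr A x z).card`, `b = (X ∩ Bg k A x z).card`. `sum_thrT`: `∑_{q ∈ X} r_q = n + m t`; big ones `≤ m`,
others `≤ k` (there are `k - b` of them). So with `j = t - b > 0`: `j m + n ≤ (n + j) k`. If
`4 b < 3 t` then `4 j ≥ t + 1`, `j (m - k) + n ≤ n k`, so `(t + 1)(m - k) + 4 n ≤ 4 n k`, but
`t (m - k) ≥ t (M - k) ≥ 4 n k`: contradiction.
-/

set_option autoImplicit false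

namespace MP44257e

variable {v n t k M : ℕ} {A : Finset (Finset (Fin v))} {x z : Fin v}

theorem inter_Bg (h : HM n t k M) (hA : IsFam [0, 1, t] k A) (hxz : x ≠ z)
    (hm : M ≤ (thr A x z).card) {X : Finset (Fin v)} (hX : X ∈ thr A x z) :
    3 * t ≤ 4 * (X ∩ Bg k A x z).card := by
  obtain ⟨ht4, ht2, rfl, hM⟩ := h
  have h1 := sum_thrT (by omega : 2 ≤ t) hA hxz hX
  have h2 := mem_thr.1 hX
  have hXc : X.card = n + t := hA.1 X h2.1
  have hsplit : ∑ q ∈ X, (thr3 A x z q).card ≤ (X ∩ Bg (n + t) A x z).card * (thr A x z).card +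
      (X.filter fun q => q ∉ Bg (n + t) A x z).card * (n + t) := by
    rw [← Finset.sum_filter_add_sum_filter_not X (fun q => q ∈ Bg (n + t) A x z)]
    have e1 : X.filter (fun q => q ∈ Bg (n + t) A x z) = X ∩ Bg (n + t) A x z := by
      ext q
      simp
    rw [e1]
    refine add_le_add ?_ ?_
    · rw [← smul_eq_mul]
      refine Finset.sum_le_card_nsmul _ _ _ fun q _ => ?_
      refine Finset.card_le_card fun Y hY => ?_
      rw [mem_thr3] at hY
      exact mem_thr.2 ⟨hY.1, hY.2.1, hY.2.2.1⟩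
    · rw [← smul_eq_mul]
      refine Finset.sum_le_card_nsmul _ _ _ fun q hq => ?_
      rw [Finset.mem_filter, mem_Bg, not_lt] at hq
      exact hq.2
  have hcard : (X ∩ Bg (n + t) A x z).card +
      (X.filter fun q => q ∉ Bg (n + t) A x z).card = n + t := by
    have e1 : X.filter (fun q => q ∈ Bg (n + t) A x z) = X ∩ Bg (n + t) A x z := by
      ext q
      simp
    have e2 := Finset.card_filter_add_card_filter_not (s := X)
      (fun q => q ∈ Bg (n + t) A x z)
    rw [e1] at e2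
    exact e2.trans hXc
  obtain ⟨b, hb⟩ : ∃ b, b = (X ∩ Bg (n + t) A x z).card := ⟨_, rfl⟩
  obtain ⟨c, hc⟩ : ∃ c, c = (X.filter fun q => q ∉ Bg (n + t) A x z).card := ⟨_, rfl⟩
  obtain ⟨m, hm'⟩ : ∃ m, m = (thr A x z).card := ⟨_, rfl⟩
  rw [← hb, ← hc] at hcard
  rw [← hb, ← hc, ← hm'] at hsplit
  rw [← hm'] at h1 hm
  rw [← hb]
  by_contra hcon
  rw [not_le] at hcon
  have h3 : n + m * t ≤ b * m + c * (n + t) := by omega
  have hn : 0 < n := by nlinarith
  zify at *
  have hj : (t : ℤ) + 1 ≤ 4 * (t - b) := by omega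
  have hcj : (c : ℤ) = n + (t - b) := by omega
  have h4 : ((t : ℤ) - b) * (m - (n + t)) + n ≤ n * (n + t) := by
    rw [hcj] at h3
    nlinarith
  have hMk : (n : ℤ) + t ≤ M := by
    by_contra h0
    rw [not_le] at h0
    nlinarith
  have hmk : (0 : ℤ) ≤ m - (n + t) := by linarith
  have h5 : ((t : ℤ) + 1) * (m - (n + t)) ≤ 4 * (t - b) * (m - (n + t)) :=
    mul_le_mul_of_nonneg_right hj hmk
  have h6 : (t : ℤ) * (M - (n + t)) ≤ t * (m - (n + t)) :=
    mul_le_mul_of_nonneg_left (by linarith) (by omega)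
  nlinarith

end MP44257e
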