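import Pool.Agent.H.MP_44257e_co.UH.W1

/-!
# The sets of big points of two heavy points meet in `x` only

Let `w ≠ x` be in both. `#(x,z,w) > k`, so `≥ D z - k` (`dich2`; the hypothesis of `dich2` holds for degrees
`≥ M - k`). So `D w ≥ D z - k > 3 k` (`M ≥ 9 k`), `dich2` applies to the pair `x, w`. `#(x,w,z) > k`, so
`≥ D w - k`; the same for `q` (`#(x,q,w) > k`). So `#(x,w,z,q) ≥ D w - 2 k > k` (inclusion-exclusion in
`thr A x w`), so `#(x,z,q) > k`, `q ∈ Bg k A x z`, a contradiction.
-/

set_option autoImplicit false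

namespace MP44257e

variable {v n t k M : ℕ} {A : Finset (Finset (Fin v))} {x z : Fin v}

theorem Bg_disj (h : HM n t k M) (hA : IsFam [0, 1, t] k A) (hxz : x ≠ z) {q : Fin v}
    (hxq : x ≠ q) (hz : M ≤ (thr A x z).card) (hq : M ≤ (thr A x q).card)
    (hqz : q ∉ Bg k A x z) {w : Fin v} (hw : w ∈ Bg k A x z) (hw' : w ∈ Bg k A x q) :
    w = x := by
  classical
  by_contra hwx
  have hxw : x ≠ w := fun e => hwx e.symm
  obtain ⟨-, -, hk12, h9, -⟩ := HM_ar h
  have hM : 4 * n * k + t * k ≤ t * M := h.2.2.2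
  rw [mem_Bg] at hw hw'
  have e1 : thr3 A x z w = thr3 A x w z := by
    ext X
    rw [mem_thr3, mem_thr3]
    tauto
  have e2 : thr3 A x q w = thr3 A x w q := by
    ext X
    rw [mem_thr3, mem_thr3]
    tauto
  have hmz : 4 * n * k ≤ t * (thr A x z).card := by
    have h1 := Nat.mul_le_mul_left t hz
    omega
  have hDz : (thr A x z).card ≤ (thr3 A x z w).card + k := by
    rcases dich2 h hA hxz hmz w with h1 | h1
    · omega
    · exact h1
  have hsub : thr3 A x z w ⊆ thr A x w := by
    intro X hX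
    rw [mem_thr3] at hX
    rw [mem_thr]
    exact ⟨hX.1, hX.2.1, hX.2.2.2⟩
  have hle := Finset.card_le_card hsub
  have hDw : M ≤ (thr A x w).card + k := by omega
  have hmw : 4 * n * k ≤ t * (thr A x w).card := by
    have h1 := Nat.mul_le_mul_left t hDw
    rw [mul_add] at h1
    omega
  rw [e1] at hw
  rw [e2] at hw'
  have h1 : (thr A x w).card ≤ (thr3 A x w z).card + k := by
    rcases dich2 h hA hxw hmw z with h1 | h1
    · omega
    · exact h1
  have h2 : (thr A x w).card ≤ (thr3 A x w q).card + k := by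
    rcases dich2 h hA hxw hmw q with h1 | h1
    · omega
    · exact h1
  have h3 := Finset.card_union_add_card_inter (thr3 A x w z) (thr3 A x w q)
  have hU : thr3 A x w z ∪ thr3 A x w q ⊆ thr A x w := by
    intro X hX
    rw [Finset.mem_union, mem_thr3, mem_thr3] at hX
    rw [mem_thr]
    tauto
  have hI : thr3 A x w z ∩ thr3 A x w q ⊆ thr3 A x z q := by
    intro X hX
    rw [Finset.mem_inter, mem_thr3, mem_thr3] at hX
    rw [mem_thr3]
    tauto
  have h4 := Finset.card_le_card hU
  have h5 := Finset.card_le_card hI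
  apply hqz
  rw [mem_Bg]
  omega

end MP44257e
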