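import Pool.Agent.H.MP_44257e_co.UH.W2
import Pool.Agent.H.MP_44257e_co.UH.W3
import Pool.Agent.H.MP_44257e_co.UH.W4

/-!
# Two heavy points are together in at most one member

Let `X ≠ X'` be members through `x, z, q`. Case `SunT t A x q` with kernel `L`: `L ⊆ X ∩ X'`, which has `t`
points (`interT`), so `L = X ∩ X' ∋ z`; so every member through `x, q` contains `z`, and
`(thr A x q).card = (thr3 A x z q).card ≤ k < M` as `q ∉ Bg`, a contradiction. Case not `SunT`: by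
`inter_Bg`, `card_Bg`: `|X ∩ X' ∩ Bg z| ≥ 2 (3 t / 4) - (t - 1)`, so `2 |X ∩ X' ∩ Bg z| ≥ t + 2`; the same for `q`;
the two sets have at most `x` in common (`Bg_disj`), so `|X ∩ X'| ≥ t + 1`, contradiction to `interT_le`.
-/

set_option autoImplicit false

namespace MP44257e

variable {v n t k M : ℕ} {A : Finset (Finset (Fin v))} {x z : Fin v}

private theorem W5_count {X X' B : Finset (Fin v)} (h1 : 3 * t ≤ 4 * (X ∩ B).card)
    (h2 : 3 * t ≤ 4 * (X' ∩ B).card) (h3 : B.card + 1 ≤ t) :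
    t + 2 ≤ 2 * (X ∩ X' ∩ B).card := by
  have e1 := Finset.card_union_add_card_inter (X ∩ B) (X' ∩ B)
  have e2 : ((X ∩ B) ∪ (X' ∩ B)).card ≤ B.card :=
    Finset.card_le_card (Finset.union_subset Finset.inter_subset_right Finset.inter_subset_right)
  have e3 : ((X ∩ B) ∩ (X' ∩ B)).card ≤ (X ∩ X' ∩ B).card := by
    apply Finset.card_le_card
    intro a ha
    simp only [Finset.mem_inter] at ha ⊢
    exact ⟨⟨ha.1.1, ha.2.1⟩, ha.1.2⟩
  omega

theorem thr3_le_one (h : HM n t k M) (hA : IsFam [0, 1, t] k A) (hxz : x ≠ z) {q : Fin v}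
    (hxq : x ≠ q) (hs : ¬ SunT t A x z) (hz : M ≤ (thr A x z).card)
    (hq : M ≤ (thr A x q).card) (hqz : q ∉ Bg k A x z) : (thr3 A x z q).card ≤ 1 := by
  by_contra hcon
  obtain ⟨X, hX, X', hX', hne⟩ := Finset.one_lt_card.1 (not_le.1 hcon)
  have mX := mem_thr3.1 hX
  have mX' := mem_thr3.1 hX'
  obtain ⟨-, -, har1, har2, -⟩ := HM_ar h
  have hqk : (thr3 A x z q).card ≤ k := by
    by_contra hh
    exact hqz (mem_Bg.2 (not_le.1 hh))
  have ht : 4 ≤ t := h.1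
  by_cases hsq : SunT t A x q
  · obtain ⟨L, hL, hxL, hqL, hall⟩ := hsq
    have e1 : L ⊆ X ∩ X' := Finset.subset_inter
      (hall X (mem_thr.2 ⟨mX.1, mX.2.1, mX.2.2.2⟩))
      (hall X' (mem_thr.2 ⟨mX'.1, mX'.2.1, mX'.2.2.2⟩))
    have e2 : (X ∩ X').card = t := interT (by omega) hA mX.1 mX'.1 hne hxq mX.2.1 mX.2.2.2
      mX'.2.1 mX'.2.2.2
    have e3 : L = X ∩ X' := Finset.eq_of_subset_of_card_le e1 (by omega)
    have hzL : z ∈ L := by
      rw [e3]
      exact Finset.mem_inter.2 ⟨mX.2.2.1, mX'.2.2.1⟩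
    have e4 : thr A x q ⊆ thr3 A x z q := by
      intro Y hY
      have hY' := mem_thr.1 hY
      exact mem_thr3.2 ⟨hY'.1, hY'.2.1, hall Y hY hzL, hY'.2.2⟩
    have e5 := Finset.card_le_card e4
    omega
  · have b1 := card_Bg h hA hxz hs hz
    have b2 := card_Bg h hA hxq hsq hq
    have c1 := inter_Bg h hA hxz hz (mem_thr.2 ⟨mX.1, mX.2.1, mX.2.2.1⟩)
    have c2 := inter_Bg h hA hxz hz (mem_thr.2 ⟨mX'.1, mX'.2.1, mX'.2.2.1⟩)
    have c3 := inter_Bg h hA hxq hq (mem_thr.2 ⟨mX.1, mX.2.1, mX.2.2.2⟩)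
    have c4 := inter_Bg h hA hxq hq (mem_thr.2 ⟨mX'.1, mX'.2.1, mX'.2.2.2⟩)
    have d1 := W5_count c1 c2 b1
    have d2 := W5_count c3 c4 b2
    have d3 := Finset.card_union_add_card_inter (X ∩ X' ∩ Bg k A x z) (X ∩ X' ∩ Bg k A x q)
    have d4 : ((X ∩ X' ∩ Bg k A x z) ∪ (X ∩ X' ∩ Bg k A x q)).card ≤ (X ∩ X').card :=
      Finset.card_le_card (Finset.union_subset Finset.inter_subset_left
        Finset.inter_subset_left)
    have d5 : ((X ∩ X' ∩ Bg k A x z) ∩ (X ∩ X' ∩ Bg k A x q)).card ≤ 1 := by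
      have d6 : (X ∩ X' ∩ Bg k A x z) ∩ (X ∩ X' ∩ Bg k A x q) ⊆ {x} := by
        intro w hw
        have h1 := Finset.mem_inter.1 hw
        exact Finset.mem_singleton.2 (Bg_disj h hA hxz hxq hz hq hqz
          (Finset.mem_inter.1 h1.1).2 (Finset.mem_inter.1 h1.2).2)
      have d7 := Finset.card_le_card d6
      rwa [Finset.card_singleton] at d7
    have d8 := interT_le (by omega) hA mX.1 mX'.1 hne
    omega

end MP44257e
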