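import Pool.Agent.H.MP_44257e_co.UH.W5

/-!
# Light points in a member through `x, z`

`m = (thr A x z).card`, `sum_thrT`: `∑_{q ∈ X} r_q = n + m t`. Big points: at most `t - 1` (`card_Bg`), each
`r ≤ m`. The others (`≠ x`, as `x` is big): light ones have `r ≤ k`, heavy ones (`D q ≥ M`) `r ≤ 1`
(`thr3_le_one`), there are at most `k = n + t` points in all. So `n + m t ≤ (t - 1) m + (n + t) + k ℓ`.
-/

set_option autoImplicit false

namespace MP44257e

variable {v n t k M : ℕ} {A : Finset (Finset (Fin v))} {x z : Fin v}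

theorem light_block (h : HM n t k M) (hA : IsFam [0, 1, t] k A) (hxz : x ≠ z)
    (hs : ¬ SunT t A x z) (hz : M ≤ (thr A x z).card) {X : Finset (Fin v)}
    (hX : X ∈ thr A x z) : (thr A x z).card ≤ t + k * (X ∩ Lt M A x).card := by
  classical
  have h1 := h
  obtain ⟨ht, -, hk, -⟩ := h1
  have har := HM_ar h
  have hkM : k < M := by
    have h2 := har.2.2.1
    have h3 := har.2.2.2.1
    omega
  obtain ⟨m, hm⟩ : ∃ m, m = (thr A x z).card := ⟨_, rfl⟩
  have hXA := mem_thr.1 hX
  have hA' : IsFam [0, 1, t] (n + t) A := hk ▸ hA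
  have hsum := sum_thrT (n := n) (by omega) hA' hxz hX
  have hle : ∀ q, (thr3 A x z q).card ≤ m := by
    intro q
    rw [hm]
    refine Finset.card_le_card fun Y hY => ?_
    rw [mem_thr3] at hY
    exact mem_thr.2 ⟨hY.1, hY.2.1, hY.2.2.1⟩
  have hpt : ∀ q ∈ X, (thr3 A x z q).card ≤
      (if q ∈ Bg k A x z then m else 0) + (if q ∈ Lt M A x then k else 0) + 1 := by
    intro q _
    by_cases hB : q ∈ Bg k A x z
    · rw [if_pos hB]
      exact (hle q).trans (by rw [add_assoc]; exact Nat.le_add_right _ _)
    · rw [if_neg hB]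
      have hqk : (thr3 A x z q).card ≤ k := by
        by_contra hc
        exact hB (mem_Bg.2 (by omega))
      by_cases hL : q ∈ Lt M A x
      · rw [if_pos hL]
        omega
      · rw [if_neg hL]
        have hxq : x ≠ q := by
          rintro rfl
          apply hB
          rw [mem_Bg]
          have h5 : thr3 A x z x = thr A x z := by
            ext Y
            rw [mem_thr3, mem_thr]
            tauto
          rw [h5]
          omega
        have hq2 : M ≤ (thr A x q).card := by
          by_contra hc
          exact hL (mem_Lt.2 ⟨hxq.symm, by omega⟩)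
        have h6 := thr3_le_one h hA hxz hxq hs hz hq2 hB
        omega
  have h2 := Finset.sum_le_sum hpt
  rw [Finset.sum_add_distrib, Finset.sum_add_distrib, Finset.sum_const, smul_eq_mul, mul_one,
    ← Finset.sum_filter, ← Finset.sum_filter, Finset.sum_const, Finset.sum_const, smul_eq_mul,
    smul_eq_mul, Finset.filter_mem_eq_inter, Finset.filter_mem_eq_inter, hA.1 X hXA.1] at h2
  have h3 : (X ∩ Bg k A x z).card + 1 ≤ t :=
    (Nat.add_le_add_right (Finset.card_le_card Finset.inter_subset_right) 1).trans
      (card_Bg h hA hxz hs hz)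
  rw [← hm] at hsum ⊢
  have h4 : ((X ∩ Bg k A x z).card + 1) * m ≤ t * m := Nat.mul_le_mul_right m h3
  rw [add_mul, one_mul] at h4
  have h5 : m * t = t * m := mul_comm m t
  have h6 : k * (X ∩ Lt M A x).card = (X ∩ Lt M A x).card * k := mul_comm _ _
  rw [h5] at hsum
  rw [h6]
  generalize (X ∩ Bg k A x z).card * m = a1 at h2 h4
  generalize t * m = a2 at hsum h4
  generalize (X ∩ Lt M A x).card * k = a3 at h2 ⊢
  omega

end MP44257e
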