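import Pool.Agent.H.MP_44257e_co.UH.W6
import Pool.Agent.H.MP_44257e_co.UE.E4

/-!
# The sum at a point

`V = v - t`, `P = {z ≠ x : V < n D z}`, `L = Lt M A x`, `𝓑` the members `X ∋ x` that meet `P`. If `z ∈ P` then
not `SunT` (`sunT_le`) and `M ≤ D z` (`n M < V`). `∑_{z ∈ P} D z = ∑_{X ∋ x} |X ∩ P| ≤ k |𝓑|`. For `X ∈ 𝓑`:
`V < n D z ≤ n t + n k |X ∩ L|` (`light_block`), so `(V - n t) |𝓑| ≤ n k ∑_{X ∋ x} |X ∩ L| = n k ∑_{q ∈ L} D q ≤
n k M |L|`. So `(V - n t) n ∑_P D ≤ n^2 k^2 M |L| ≤ (V - n t)(V - n M) |L|`, so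
`n ∑_P D ≤ (V - n M) |L| ≤ ∑_{q ∈ L} (V - n D q)`. The other `z` (not in `P`, not in `L`) have `n D z ≤ V`.
So `∑_{z ≠ x} (V - n D z) ≥ V |P| ≥ 0`. If it is 0: `P` is empty, all terms are `≥ 0`, so all are 0,
`n D z = V` for all `z ≠ x`; so `L` is empty (`n M < V`), and not `SunT` would give `D z ≤ t < M ≤ D z` by
`light_block`. Compare `UE/E5.lean` for the form of the sums (integers).
-/

set_option autoImplicit false

namespace MP44257e

variable {v n t k M : ℕ} {A : Finset (Finset (Fin v))}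

private theorem W7_dc (x : Fin v) (P : Finset (Fin v)) :
    ∑ z ∈ P, (thr A x z).card = ∑ X ∈ A.filter (fun X => x ∈ X), (X ∩ P).card := by
  have e1 : ∀ z, (thr A x z).card =
      ∑ X ∈ A.filter (fun X => x ∈ X), if z ∈ X then 1 else 0 := by
    intro z
    rw [← Finset.card_filter]
    congr 1
    ext X
    rw [mem_thr, Finset.mem_filter, Finset.mem_filter]
    tauto
  rw [Finset.sum_congr rfl fun z _ => e1 z, Finset.sum_comm]
  refine Finset.sum_congr rfl fun X _ => ?_
  rw [← Finset.card_filter]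
  congr 1
  ext z
  rw [Finset.mem_filter, Finset.mem_inter]
  tauto

theorem point_sumW (h : HM n t k M) (hA : IsFam [0, 1, t] k A) (hV : n * M + t < v)
    (hV2 : n ^ 2 * k ^ 2 * M ≤ (v - t - n * t) * (v - t - n * M)) (x : Fin v) :
    (∑ y ∈ Finset.univ.erase x, (thr A x y).card) * n ≤ (v - 1) * (v - t) ∧
    ((∑ y ∈ Finset.univ.erase x, (thr A x y).card) * n = (v - 1) * (v - t) →
      ∀ y, y ≠ x → SunT t A x y ∧ (thr A x y).card * n = v - t) := by
  classical
  obtain ⟨ht, hnt, hk, hM⟩ := h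
  have h : HM n t k M := ⟨ht, hnt, hk, hM⟩
  have hA' : IsFam [0, 1, t] (n + t) A := by
    rw [← hk]
    exact hA
  have hv1 : 1 ≤ v := by omega
  have htv : t ≤ v := by omega
  obtain ⟨V, hVd⟩ : ∃ V, V = v - t := ⟨_, rfl⟩
  rw [← hVd] at hV2 ⊢
  have hVM : n * M < V := by omega
  -- `t ≤ M`
  have hkM : k ≤ M := by
    have h1 : t * k ≤ t * M := le_trans (Nat.le_add_left _ _) hM
    exact Nat.le_of_mul_le_mul_left h1 (by omega)
  have htM : t ≤ M := by omega
  have hntM : n * t ≤ n * M := Nat.mul_le_mul_left n htM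
  have hVt : 0 < V - n * t := by omega
  obtain ⟨L, hL⟩ : ∃ L, L = Lt M A x := ⟨_, rfl⟩
  obtain ⟨P, hP⟩ : ∃ P, P = (Finset.univ.erase x).filter
    (fun z => V < n * (thr A x z).card) := ⟨_, rfl⟩
  have hPm : ∀ z, z ∈ P ↔ z ≠ x ∧ V < n * (thr A x z).card := by
    intro z
    rw [hP, Finset.mem_filter, Finset.mem_erase]
    simp
  have hLm : ∀ q, q ∈ L ↔ q ≠ x ∧ (thr A x q).card < M := by
    intro q
    rw [hL, mem_Lt]
  have hPM : ∀ z ∈ P, M ≤ (thr A x z).card := by
    intro z hz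
    by_contra hc
    have h1 := (hPm z).1 hz
    have h2 : n * (thr A x z).card ≤ n * M := Nat.mul_le_mul_left n (by omega)
    omega
  have hPs : ∀ z ∈ P, ¬ SunT t A x z := by
    intro z hz hs
    have h1 := (hPm z).1 hz
    have h2 := sunT_le (by omega) hA' h1.1.symm htv hs
    rw [← hVd] at h2
    have h3 : n * (thr A x z).card = (thr A x z).card * n := Nat.mul_comm _ _
    omega
  have hdis : Disjoint P L := by
    rw [Finset.disjoint_left]
    intro z hz hz'
    have h1 := hPM z hz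
    have h2 := ((hLm z).1 hz').2
    omega
  -- members through `x`
  obtain ⟨Ax, hAx⟩ : ∃ Ax, Ax = A.filter (fun X => x ∈ X) := ⟨_, rfl⟩
  obtain ⟨B, hB⟩ : ∃ B, B = Ax.filter (fun X => (X ∩ P).Nonempty) := ⟨_, rfl⟩
  have hBs : B ⊆ Ax := by
    rw [hB]
    exact Finset.filter_subset _ _
  have s1 : ∑ z ∈ P, (thr A x z).card ≤ k * B.card := by
    rw [W7_dc x P, ← hAx, ← Finset.sum_subset hBs]
    · have h1 : ∑ X ∈ B, (X ∩ P).card ≤ ∑ _X ∈ B, k := by
        refine Finset.sum_le_sum fun X hX => ?_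
        have h2 := hBs hX
        rw [hAx, Finset.mem_filter] at h2
        exact (Finset.card_le_card Finset.inter_subset_left).trans (hA.1 X h2.1).le
      rw [Finset.sum_const, smul_eq_mul] at h1
      rw [Nat.mul_comm]
      exact h1
    · intro X hX hX'
      rw [hB, Finset.mem_filter, not_and] at hX'
      have h1 := hX' hX
      rw [Finset.not_nonempty_iff_eq_empty] at h1
      rw [h1, Finset.card_empty]
  have s2 : (V - n * t) * B.card ≤ n * k * (M * L.card) := by
    have h1 : ∀ X ∈ B, V - n * t ≤ n * k * (X ∩ L).card := by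
      intro X hX
      rw [hB, Finset.mem_filter] at hX
      obtain ⟨z, hz⟩ := hX.2
      rw [Finset.mem_inter] at hz
      have h2 := hX.1
      rw [hAx, Finset.mem_filter] at h2
      have h3 := (hPm z).1 hz.2
      have h4 := light_block h hA h3.1.symm (hPs z hz.2) (hPM z hz.2)
        (mem_thr.2 ⟨h2.1, h2.2, hz.1⟩)
      rw [← hL] at h4
      have h5 : n * (thr A x z).card ≤ n * (t + k * (X ∩ L).card) := Nat.mul_le_mul_left n h4
      have h6 : n * (t + k * (X ∩ L).card) = n * t + n * k * (X ∩ L).card := by ring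
      omega
    calc (V - n * t) * B.card = ∑ _X ∈ B, (V - n * t) := by
          rw [Finset.sum_const, smul_eq_mul, Nat.mul_comm]
      _ ≤ ∑ X ∈ B, n * k * (X ∩ L).card := Finset.sum_le_sum h1
      _ ≤ ∑ X ∈ Ax, n * k * (X ∩ L).card :=
          Finset.sum_le_sum_of_subset_of_nonneg hBs fun _ _ _ => Nat.zero_le _
      _ = n * k * ∑ q ∈ L, (thr A x q).card := by
          rw [W7_dc x L, ← hAx, Finset.mul_sum]
      _ ≤ n * k * ∑ _q ∈ L, M :=
          Nat.mul_le_mul_left _ (Finset.sum_le_sum fun q hq => ((hLm q).1 hq).2.le)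
      _ = n * k * (M * L.card) := by
          rw [Finset.sum_const, smul_eq_mul, Nat.mul_comm L.card M]
  have s3 : n * ∑ z ∈ P, (thr A x z).card ≤ (V - n * M) * L.card := by
    refine Nat.le_of_mul_le_mul_left (c := V - n * t) ?_ hVt
    calc (V - n * t) * (n * ∑ z ∈ P, (thr A x z).card)
        ≤ (V - n * t) * (n * (k * B.card)) :=
          Nat.mul_le_mul_left _ (Nat.mul_le_mul_left _ s1)
      _ = n * k * ((V - n * t) * B.card) := by ring
      _ ≤ n * k * (n * k * (M * L.card)) := Nat.mul_le_mul_left _ s2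
      _ = n ^ 2 * k ^ 2 * M * L.card := by ring
      _ ≤ (V - n * t) * (V - n * M) * L.card := Nat.mul_le_mul_right _ hV2
      _ = (V - n * t) * ((V - n * M) * L.card) := by ring
  obtain ⟨w, hw⟩ : ∃ w : Fin v → ℤ, w = fun z => (V : ℤ) - n * ((thr A x z).card : ℤ) :=
    ⟨_, rfl⟩
  have s3' : (n : ℤ) * ∑ z ∈ P, ((thr A x z).card : ℤ) ≤ ((V : ℤ) - n * M) * L.card := by
    have h1 : ((n * ∑ z ∈ P, (thr A x z).card : ℕ) : ℤ) ≤ (((V - n * M) * L.card : ℕ) : ℤ) := by
      exact_mod_cast s3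
    rw [Nat.cast_mul, Nat.cast_sum, Nat.cast_mul, Nat.cast_sub hVM.le, Nat.cast_mul] at h1
    exact h1
  have sP : ∑ z ∈ P, w z = (P.card : ℤ) * V - n * ∑ z ∈ P, ((thr A x z).card : ℤ) := by
    rw [hw, Finset.sum_sub_distrib, Finset.sum_const, nsmul_eq_mul, ← Finset.mul_sum]
  have sL : ((V : ℤ) - n * M) * L.card ≤ ∑ z ∈ L, w z := by
    have h1 : ∑ _z ∈ L, ((V : ℤ) - n * M) ≤ ∑ z ∈ L, w z := by
      refine Finset.sum_le_sum fun q hq => ?_
      have h2 : n * (thr A x q).card ≤ n * M := Nat.mul_le_mul_left n ((hLm q).1 hq).2.le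
      have h3 : (n : ℤ) * ((thr A x q).card : ℤ) ≤ (n : ℤ) * M := by exact_mod_cast h2
      rw [hw]
      show (V : ℤ) - n * M ≤ (V : ℤ) - n * ((thr A x q).card : ℤ)
      linarith
    rw [Finset.sum_const, nsmul_eq_mul, mul_comm] at h1
    exact h1
  have hrest : ∀ z, z ≠ x → z ∉ P → 0 ≤ w z := by
    intro z hzx hzP
    have h1 : n * (thr A x z).card ≤ V := by
      by_contra hc
      exact hzP ((hPm z).2 ⟨hzx, by omega⟩)
    have h2 : (n : ℤ) * ((thr A x z).card : ℤ) ≤ V := by exact_mod_cast h1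
    rw [hw]
    show 0 ≤ (V : ℤ) - n * ((thr A x z).card : ℤ)
    linarith
  have hsub : P ∪ L ⊆ Finset.univ.erase x := by
    intro z hz
    rw [Finset.mem_union] at hz
    rcases hz with hz | hz
    · exact Finset.mem_erase.2 ⟨((hPm z).1 hz).1, Finset.mem_univ _⟩
    · exact Finset.mem_erase.2 ⟨((hLm z).1 hz).1, Finset.mem_univ _⟩
  have hsplit := Finset.sum_sdiff (f := w) hsub
  rw [Finset.sum_union hdis] at hsplit
  have hR : 0 ≤ ∑ z ∈ Finset.univ.erase x \ (P ∪ L), w z := by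
    refine Finset.sum_nonneg fun z hz => ?_
    rw [Finset.mem_sdiff, Finset.mem_erase, Finset.mem_union] at hz
    exact hrest z hz.1.1 (fun h' => hz.2 (Or.inl h'))
  have hge : (P.card : ℤ) * V ≤ ∑ z ∈ Finset.univ.erase x, w z := by linarith
  have htot : ∑ z ∈ Finset.univ.erase x, w z = ((v : ℤ) - 1) * V -
      (((∑ y ∈ Finset.univ.erase x, (thr A x y).card) * n : ℕ) : ℤ) := by
    have e1 : ((Finset.univ.erase x).card : ℤ) = (v : ℤ) - 1 := by
      rw [Finset.card_erase_of_mem (Finset.mem_univ x), Finset.card_univ, Fintype.card_fin,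
        Nat.cast_sub hv1, Nat.cast_one]
    rw [hw, Finset.sum_sub_distrib, Finset.sum_const, nsmul_eq_mul, ← Finset.mul_sum, e1]
    push_cast
    ring
  have hcast : ((((v - 1) * V) : ℕ) : ℤ) = ((v : ℤ) - 1) * V := by
    rw [Nat.cast_mul, Nat.cast_sub hv1, Nat.cast_one]
  have hV0 : (0 : ℤ) < V := by exact_mod_cast (by omega : 0 < V)
  refine ⟨?_, fun heq => ?_⟩
  · have h1 : (((∑ y ∈ Finset.univ.erase x, (thr A x y).card) * n : ℕ) : ℤ) ≤
        ((((v - 1) * V) : ℕ) : ℤ) := by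
      rw [hcast]
      have h2 : (0 : ℤ) ≤ (P.card : ℤ) * V := by positivity
      linarith
    exact_mod_cast h1
  · have h0 : ∑ z ∈ Finset.univ.erase x, w z = 0 := by
      rw [htot, heq, hcast, sub_self]
    have hPe : P = ∅ := by
      rw [← Finset.card_eq_zero]
      by_contra hne
      have h1 : (1 : ℤ) ≤ P.card := by exact_mod_cast Nat.one_le_iff_ne_zero.2 hne
      have h2 : (0 : ℤ) < (P.card : ℤ) * V := mul_pos (by linarith) hV0
      linarith
    have hnn' : ∀ z ∈ Finset.univ.erase x, 0 ≤ w z := by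
      intro z hz
      refine hrest z (Finset.mem_erase.1 hz).1 ?_
      rw [hPe]
      exact Finset.notMem_empty _
    have hall : ∀ y, y ≠ x → n * (thr A x y).card = V := by
      intro y hyx
      have h1 := (Finset.sum_eq_zero_iff_of_nonneg hnn').1 h0 y
        (Finset.mem_erase.2 ⟨hyx, Finset.mem_univ _⟩)
      rw [hw] at h1
      have h2 : (V : ℤ) - n * ((thr A x y).card : ℤ) = 0 := h1
      have h3 : (n : ℤ) * ((thr A x y).card : ℤ) = V := by linarith
      exact_mod_cast h3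
    have hbig : ∀ y, y ≠ x → M < (thr A x y).card := by
      intro y hyx
      by_contra hc
      have h1 : n * (thr A x y).card ≤ n * M := Nat.mul_le_mul_left n (by omega)
      have h2 := hall y hyx
      omega
    have hLe : L = ∅ := by
      rw [Finset.eq_empty_iff_forall_notMem]
      intro q hq
      obtain ⟨h1, h2⟩ := (hLm q).1 hq
      have h3 := hbig q h1
      omega
    intro y hyx
    refine ⟨?_, by rw [Nat.mul_comm]; exact hall y hyx⟩
    by_contra hs
    have h1 := hbig y hyx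
    obtain ⟨X, hX⟩ := Finset.card_pos.1 (lt_of_le_of_lt (Nat.zero_le _) h1)
    have h2 := light_block h hA hyx.symm hs h1.le hX
    rw [← hL, hLe, Finset.inter_empty, Finset.card_empty, Nat.mul_zero] at h2
    omega

end MP44257e
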